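import Mathlib
import Pool.Agent.Helper858.Cube5.Final

set_option autoImplicit false

namespace Pool.Agent.Results.MP_de7d88_co.FiveCube

open Filter Topology
open Pool.Agent.Helper858.Cube5 (f MeetsAll f5_le ratio_mono)

/-- `a_5 ≤ 0.1638 < 1/6`: the minimum size `f 5 n` of a set of vertices of `{0,1}^n` meeting every
`5`-dimensional subcube satisfies `f 5 n ≤ 0.1638 * 2 ^ n` for every `n`, the ratio
`f 5 n / 2 ^ n` converges, and its limit `a_5` is strictly smaller than `1 / (5 + 1)`. -/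
theorem result :
    (∀ n : ℕ, (f 5 n : ℝ) ≤ 0.1638 * 2 ^ n) ∧
    ∃ a : ℝ, Tendsto (fun n : ℕ => (f 5 n : ℝ) / 2 ^ n) atTop (𝓝 a) ∧ a ≤ 0.1638 ∧
      a < 1 / ((5 : ℝ) + 1) := by
  refine ⟨f5_le, ?_⟩
  have hb : BddAbove (Set.range fun n : ℕ => (f 5 n : ℝ) / 2 ^ n) := by
    refine ⟨0.1638, ?_⟩
    rintro _ ⟨n, rfl⟩
    exact (div_le_iff₀ (by positivity)).2 (f5_le n)
  have ht := tendsto_atTop_ciSup (ratio_mono 5) hb
  have hle : (⨆ n : ℕ, (f 5 n : ℝ) / 2 ^ n) ≤ 0.1638 :=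
    ciSup_le fun n => (div_le_iff₀ (by positivity)).2 (f5_le n)
  exact ⟨_, ht, hle, lt_of_le_of_lt hle (by norm_num)⟩

end Pool.Agent.Results.MP_de7d88_co.FiveCube
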